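import Pool.Agent.Helper93.NP.Fin

/-! A projective bundle `X = P(E)` over the plane, `E` of rank five, with a nef class of codimension
two that is not pseudo-effective. -/

namespace Pool.Agent.Results.MP_16deda_ag.NefNotPsef

open Pool.Agent.Helper93.NP

/-- There is a matrix `M` of linear forms of rank ten at every point of the plane, that is a vector
bundle `E = coker (O(-1)^10 → O^15)` of rank five, such that on the sixfold `P(E)` the class
`h ξ - 4 h²` is nef but not pseudo-effective. -/
theorem result :
    ∃ M : Fin 10 → Fin 15 → Fin 3 → ℂ, IsBundle M ∧ (∃ s, HasNumbers (IM M) 6 s) ∧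
      IsNef M 2 ![0, 1, -4] ∧ ¬ IsPsef M 6 2 ![0, 1, -4] :=
  all

end Pool.Agent.Results.MP_16deda_ag.NefNotPsef
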